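import Pool.Agent.Lib_helper8.PENT.Frame
import Pool.Agent.Lib_helper15.Quad.Main

/-!
# AQ: the final statement from the main theorem (helper97)
-/

set_option autoImplicit false

namespace Pool.Agent.AQ

open Polynomial Pool.Agent.PENT

/-- the main theorem: every value of `h(|f(n)|)`, `a f(n) > 0`, has positive lower density -/
def MainAQ : Prop := ∀ a b c : ℤ, a ≠ 0 → ¬ IsSquare (b ^ 2 - 4 * a * c) → ∀ h : ℕ → ℤ, CM h →
  ∀ n₀ : ℤ, 0 < a * (a * n₀ ^ 2 + b * n₀ + c) → ∃ κ : ℝ, 0 < κ ∧ ∃ x₀ : ℝ, ∀ x : ℝ, x₀ ≤ x →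
    κ * x ≤ (((Finset.Icc 1 ⌊x⌋₊).filter (fun n : ℕ =>
      h (a * (n : ℤ) ^ 2 + b * n + c).natAbs = h (a * n₀ ^ 2 + b * n₀ + c).natAbs)).card : ℝ)

/-- the Liouville function -/
def liouville (m : ℤ) : ℤ :=
  if m = 0 then 0 else (-1) ^ (ArithmeticFunction.cardFactors m.natAbs)

theorem fin_natAbs (m : ℤ) : liouville (m.natAbs : ℤ) = liouville m := by
  unfold liouville
  rw [Int.natAbs_natCast]
  by_cases h : m = 0
  · rw [h]; simp
  · rw [if_neg h, if_neg (by simpa using h)]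

theorem fin_mult : Pool.Agent.H15Quad.Mult liouville := by
  refine ⟨?_, ?_, ?_⟩
  · intro m n hm hn
    have hmn : m * n ≠ 0 := mul_ne_zero hm hn
    rw [liouville, liouville, liouville, if_neg hm, if_neg hn, if_neg hmn, Int.natAbs_mul,
      ArithmeticFunction.cardFactors_mul (by simpa using hm) (by simpa using hn), pow_add]
  · intro m hm
    rw [liouville, if_neg hm]
    exact neg_one_pow_eq_or ℤ _
  · intro N hN
    obtain ⟨P, hP, -, hmod⟩ := Nat.exists_prime_gt_modEq_one (k := N) 1 (by omega)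
    refine ⟨P, hP, hmod, ?_⟩
    have : (P : ℤ) ≠ 0 := by exact_mod_cast hP.ne_zero
    rw [liouville, if_neg this, Int.natAbs_natCast,
      ArithmeticFunction.cardFactors_apply_prime hP]
    norm_num

theorem fin_cm : CM (fun n : ℕ => liouville (n : ℤ)) := by
  refine ⟨fun m n hm hn => ?_, fun n hn => ?_⟩
  · show liouville (((m * n : ℕ)) : ℤ) = _
    push_cast
    exact fin_mult.mul _ _ (by exact_mod_cast hm.ne') (by exact_mod_cast hn.ne')
  · exact fin_mult.val _ (by exact_mod_cast hn.ne')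

/-- the coefficients of an irreducible quadratic polynomial -/
theorem fin_disc {f : ℤ[X]} (hdeg : f.natDegree = 2)
    (hirr : Irreducible (f.map (Int.castRingHom ℚ))) :
    f.coeff 2 ≠ 0 ∧ ¬ IsSquare ((f.coeff 1) ^ 2 - 4 * f.coeff 2 * f.coeff 0) ∧
      ∀ n : ℤ, f.eval n = f.coeff 2 * n ^ 2 + f.coeff 1 * n + f.coeff 0 := by
  set a : ℤ := f.coeff 2 with ha
  set b : ℤ := f.coeff 1 with hb
  set c : ℤ := f.coeff 0 with hc
  have ha0 : a ≠ 0 := by
    rw [ha, ← hdeg, coeff_natDegree, Ne, leadingCoeff_eq_zero]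
    rintro rfl
    simp at hdeg
  have hform : f = C a * X ^ 2 + C b * X + C c := by
    conv_lhs => rw [f.as_sum_range_C_mul_X_pow, hdeg]
    rw [Finset.sum_range_succ, Finset.sum_range_succ, Finset.sum_range_one]
    ring
  refine ⟨ha0, ?_, fun n => by rw [hform]; simp⟩
  rintro ⟨s, hs⟩
  have haQ : (a : ℚ) ≠ 0 := by exact_mod_cast ha0
  have hroot : (f.map (Int.castRingHom ℚ)).IsRoot ((-(b : ℚ) + s) / (2 * a)) := by
    rw [IsRoot.def, hform]
    simp only [Polynomial.map_add, Polynomial.map_mul, Polynomial.map_pow, map_C, map_X,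
      eval_add, eval_mul, eval_pow, eval_C, eval_X]
    simp only [eq_intCast]
    have hsQ : (b : ℚ) ^ 2 - 4 * a * c = s * s := by exact_mod_cast hs
    field_simp
    linear_combination -hsQ
  have h1 := degree_eq_one_of_irreducible_of_root hirr hroot
  have h2 : (f.map (Int.castRingHom ℚ)).natDegree = 2 := by
    rw [natDegree_map_eq_of_injective (RingHom.injective_int _), hdeg]
  have h3 : (f.map (Int.castRingHom ℚ)).natDegree = 1 :=
    natDegree_eq_of_degree_eq_some h1
  omega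

/-- from the two signs to the sum -/
theorem fin_sum {f : ℕ → ℤ} {N : ℕ} (hf : ∀ n ∈ Finset.Icc 1 N, f n = 1 ∨ f n = -1) {x a : ℝ}
    (hN : (N : ℝ) ≤ x) (hp : a ≤ (((Finset.Icc 1 N).filter (fun n => f n = 1)).card : ℝ))
    (hm : a ≤ (((Finset.Icc 1 N).filter (fun n => f n = -1)).card : ℝ)) :
    |((∑ n ∈ Finset.Icc 1 N, f n : ℤ) : ℝ)| ≤ x - 2 * a := by
  have h1 : ∑ n ∈ Finset.Icc 1 N, f n =
      (((Finset.Icc 1 N).filter (fun n => f n = 1)).card : ℤ) -
        (((Finset.Icc 1 N).filter (fun n => f n = -1)).card : ℤ) := by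
    have h2 : ∀ n ∈ Finset.Icc 1 N, f n =
        (if f n = 1 then 1 else 0) - (if f n = -1 then 1 else 0) := by
      intro n hn
      rcases hf n hn with h3 | h3 <;> rw [h3] <;> norm_num
    rw [Finset.sum_congr rfl h2, Finset.sum_sub_distrib, Finset.sum_boole, Finset.sum_boole]
  have h3 : (((Finset.Icc 1 N).filter (fun n => f n = 1)).card : ℝ) +
      (((Finset.Icc 1 N).filter (fun n => f n = -1)).card : ℝ) = N := by
    have h4 : (Finset.Icc 1 N).filter (fun n => f n = -1) =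
        (Finset.Icc 1 N).filter (fun n => ¬ f n = 1) := by
      apply Finset.filter_congr
      intro n hn
      rcases hf n hn with h5 | h5 <;> rw [h5] <;> norm_num
    rw [h4]
    have h6 := Finset.card_filter_add_card_filter_not (s := Finset.Icc 1 N) (fun n => f n = 1)
    rw [Nat.card_Icc] at h6
    have h7 : ((Finset.Icc 1 N).filter (fun n => f n = 1)).card +
        ((Finset.Icc 1 N).filter (fun n => ¬ f n = 1)).card = N := by omega
    exact_mod_cast h7
  rw [h1, abs_le]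
  push_cast
  constructor <;> linarith

/-- `a f(n) > 0` for all large `n` -/
theorem fin_large (a b c : ℤ) (ha : a ≠ 0) : ∃ N : ℕ, ∀ n : ℤ, (N : ℤ) ≤ n →
    0 < a * (a * n ^ 2 + b * n + c) := by
  refine ⟨(|b| + |c| + 1).toNat, fun n hn => ?_⟩
  have h0 : 0 ≤ |b| + |c| + 1 := by positivity
  rw [Int.toNat_of_nonneg h0] at hn
  have h1 : 1 ≤ a ^ 2 := by
    have : 0 < a ^ 2 := by positivity
    omega
  have h2 : 1 ≤ |a| := Int.one_le_abs ha
  have h3 : a * (b * n) ≥ -(|a| * |b| * n) := by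
    have hn0 : 0 ≤ n := h0.trans hn
    have h4 : |a * b| = |a| * |b| := abs_mul a b
    have h5 := neg_abs_le (a * b)
    rw [h4] at h5
    nlinarith
  have h4 : a * c ≥ -(|a| * |c|) := by
    have h5 := neg_abs_le (a * c)
    rwa [abs_mul] at h5
  have h5 : a ^ 2 = |a| ^ 2 := (sq_abs a).symm
  have hn1 : 1 ≤ n := by
    have := abs_nonneg b
    have := abs_nonneg c
    omega
  have e : a * (a * n ^ 2 + b * n + c) = a ^ 2 * n ^ 2 + a * (b * n) + a * c := by ring
  rw [e, h5]
  have hb := abs_nonneg b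
  have hc := abs_nonneg c
  have h6 : |a| * |c| ≤ |a| * |c| * n := le_mul_of_one_le_right (by positivity) hn1
  have h7 : |a| * n * (|b| + |c| + 1) ≤ |a| * n * n :=
    mul_le_mul_of_nonneg_left hn (by positivity)
  have h8 : |a| * n * n ≤ |a| * (|a| * n * n) :=
    le_mul_of_one_le_left (by positivity) h2
  have h9 : 0 < |a| * n := by positivity
  nlinarith

/-- **the Liouville function**: both signs have positive lower density -/
theorem lam_of_main (M : MainAQ) {f : ℤ[X]} (hdeg : f.natDegree = 2)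
    (hirr : Irreducible (f.map (Int.castRingHom ℚ))) : ∃ c : ℝ, 0 < c ∧ ∃ x₀ : ℝ, ∀ x : ℝ,
      x₀ ≤ x → |((∑ n ∈ Finset.Icc 1 ⌊x⌋₊, liouville (f.eval (n : ℤ)) : ℤ) : ℝ)| ≤
        (1 - c) * x := by
  obtain ⟨ha, hD, hev⟩ := fin_disc hdeg hirr
  set a := f.coeff 2
  set b := f.coeff 1
  set c := f.coeff 0
  have hne : ∀ n : ℤ, a * n ^ 2 + b * n + c ≠ 0 := by
    intro n h0
    apply hD
    refine ⟨2 * a * n + b, ?_⟩
    linear_combination -(4 * a) * h0
  have hD0 : b ^ 2 - 4 * (a * c) ≠ 0 := by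
    intro h0
    exact hD ⟨0, by linear_combination h0⟩
  obtain ⟨K, hK⟩ := Pool.Agent.H15Quad.shift_int fin_mult ha hD0 {0} (by simp)
  obtain ⟨N, hN⟩ := fin_large a b c ha
  obtain ⟨⟨n1, l1, _, e1⟩, ⟨n2, l2, _, e2⟩⟩ := hK (N + 1) (by omega)
  simp only [Finset.prod_singleton, add_zero, Pool.Agent.H15Quad.qv] at e1 e2
  have key : ∀ m : ℤ, liouville m = (fun n : ℕ => liouville (n : ℤ)) m.natAbs :=
    fun m => (fin_natAbs m).symm
  obtain ⟨c1, hc1, x1, H1⟩ := M a b c ha hD _ fin_cm n1 (hN n1 (by omega))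
  obtain ⟨c2, hc2, x2, H2⟩ := M a b c ha hD _ fin_cm n2 (hN n2 (by omega))
  simp only [fin_natAbs] at H1 H2
  refine ⟨2 * min c1 c2, by positivity, max (max x1 x2) 0, fun x hx => ?_⟩
  have hx0 : 0 ≤ x := (le_max_right _ _).trans hx
  have a1 := H1 x ((le_max_left _ _).trans ((le_max_left _ _).trans hx))
  have a2 := H2 x ((le_max_right _ _).trans ((le_max_left _ _).trans hx))
  rw [e1] at a1
  rw [e2] at a2
  have h5 : min c1 c2 * x ≤ c1 * x := mul_le_mul_of_nonneg_right (min_le_left _ _) hx0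
  have h6 : min c1 c2 * x ≤ c2 * x := mul_le_mul_of_nonneg_right (min_le_right _ _) hx0
  have h7 := fin_sum (f := fun n : ℕ => liouville (f.eval (n : ℤ))) (N := ⌊x⌋₊) (x := x)
    (a := min c1 c2 * x) ?_ (Nat.floor_le hx0) (by simp only [hev]; exact h5.trans a1)
    (by simp only [hev]; exact h6.trans a2)
  · have h8 : (1 - 2 * min c1 c2) * x = x - 2 * (min c1 c2 * x) := by ring
    rw [h8]
    exact h7
  · intro n _
    show liouville (f.eval (n : ℤ)) = 1 ∨ liouville (f.eval (n : ℤ)) = -1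
    rw [hev]
    exact fin_mult.val _ (hne n)

end Pool.Agent.AQ
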