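import Pool.Agent.Lib_helper8.AQ.PairsE
import Pool.Agent.Lib_helper8.AQ.Rare
import Pool.Agent.Lib_helper1.AQE.H
import Pool.Agent.Lib_helper97.AQ.Final

/-!
# AQ: the main theorem from Part I (helper97)
-/

set_option autoImplicit false

namespace Pool.Agent.AQ

open Finset Pool.Agent.PENT

theorem end_sgn {h : ℕ → ℤ} : Pool.Agent.MQ.Sgn h ↔ CM h :=
  ⟨fun k => ⟨fun m n hm hn => k.mul m n hm hn, fun n hn => k.pm n hn⟩,
    fun k => ⟨fun n hn => k.val n hn, fun m n hm hn => k.mul m n hm hn⟩⟩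

theorem end_rg {D : ℤ} {C C' Y : ℝ} (hC : 0 < C) (hCC : C ≤ C') (hY : 0 ≤ Y) {w : ℤ × ℤ}
    (hw : Pool.Agent.AQE.Rg D C Y w) : Pool.Agent.AQE.Rg D C' Y w := by
  obtain ⟨h1, h2, h3, h4⟩ := hw
  have hs : 0 ≤ Real.sqrt Y := Real.sqrt_nonneg _
  have hw1 : 0 ≤ (w.1 : ℝ) := by
    by_contra h
    push Not at h
    have := mul_neg_of_pos_of_neg hC h
    linarith
  have hn : 0 ≤ (w.1 : ℝ) ^ 2 + D * (w.2 : ℝ) ^ 2 := by
    by_contra h
    push Not at h
    have := mul_neg_of_pos_of_neg hC h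
    linarith
  exact ⟨h1.trans (mul_le_mul_of_nonneg_right hCC hw1),
    h2.trans (mul_le_mul_of_nonneg_right hCC hs), h3.trans (mul_le_mul_of_nonneg_right hCC hs),
    h4.trans (mul_le_mul_of_nonneg_right hCC hn)⟩

theorem end_pairs {D : ℤ} {R : ℕ} {χ : ℕ → ℤ} {h : ℕ → ℤ} {C C' H H' δ Y : ℝ} (hC : 0 < C)
    (hCC : C ≤ C') (hHH : H ≤ H') (hY : 0 ≤ Y) (hP : Pool.Agent.AQE.PairsAt D R χ h C' H' δ Y) :
    Pool.Agent.AQE.PairsAt D R χ h C H δ Y := by
  intro A hA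
  refine hP A fun z hz => ?_
  obtain ⟨r1, r2, p1, p2, q1, q2, hch, d0, d1, hne⟩ := hA z hz
  exact ⟨end_rg hC hCC hY r1, end_rg hC hCC hY r2, p1, p2, q1, q2, hch, d0, d1.trans hHH, hne⟩

/-- **the value `h(a0)` is not rare** -/
theorem not_rare (hP : PartI) (cc : Cst) (h : ℕ → ℤ) (hh : CM h) : ¬ @Rare cc h := by
  classical
  let _ := cc
  intro hrare
  have hsg : Pool.Agent.MQ.Sgn h := end_sgn.2 hh
  obtain ⟨c₁, x₀, hc₁, hx₀⟩ := Pool.Agent.AQE.aq_end (R := cc.R) (m := cc.m) (d := cc.d)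
    cc.R_pos cc.R_dvd cc.md_pos cc.d_ns (b₀ := b0) (D := D) rfl rfl
    (by
      intro C H δ hC hH hδ
      obtain ⟨c, N, Y₀, hc, hpr⟩ := pairs_of_partI hP (max C 1) (max H 1) δ (le_max_right _ _)
        (le_max_right _ _) hδ
      refine ⟨c, N, max Y₀ 0, hc, ?_⟩
      intro h' hh' Y hY σ hσ hcnt
      refine end_pairs hC (le_max_left C 1) (le_max_left H 1) ((le_max_right _ _).trans hY) ?_
      refine hpr h' (end_sgn.1 hh') Y ((le_max_left _ _).trans hY) σ hσ ?_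
      refine lt_of_le_of_lt (le_of_eq ?_) hcnt
      unfold Pool.Agent.AQE.cnt
      congr 2
      ext M
      simp only [mem_filter]
      rfl) hsg
  have ha0 := a0_pos
  set B : ℝ := (b0.natAbs : ℝ) with hB
  have hB0 : 0 ≤ B := Nat.cast_nonneg _
  obtain ⟨Y, hY, hlt⟩ := hrare (c₁ / 2) (a0.natAbs + b0.natAbs)
    (max x₀ (max 1 (2 * B / c₁))) (by positivity)
  have hY1 : x₀ ≤ Y := (le_max_left _ _).trans hY
  have hY2 : 1 ≤ Y := ((le_max_left _ _).trans (le_max_right _ _)).trans hY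
  have hY3 : 2 * B / c₁ ≤ Y := ((le_max_right _ _).trans (le_max_right _ _)).trans hY
  have hY0 : 0 ≤ Y := by linarith
  have h1 := hx₀ Y hY1
  -- the map
  set T : Finset ℕ := (Icc 1 ⌊Y⌋₊).filter
    (fun t : ℕ => h (Pool.Agent.AQE.gp b0 D t).natAbs = 1) with hT
  have hTc : c₁ * Y ≤ (T.card : ℝ) := by
    refine h1.trans (le_of_eq ?_)
    unfold Pool.Agent.AQE.cnt
    congr 2
    rw [hT]
    ext M
    simp only [mem_filter]
  set T' : Finset ℕ := T.filter (fun t => b0.natAbs < t) with hT'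
  have hTT : (T.card : ℝ) ≤ T'.card + B := by
    have e1 : T ⊆ T' ∪ Icc 1 b0.natAbs := by
      intro t ht
      rw [mem_union, hT', mem_filter]
      by_cases h2 : b0.natAbs < t
      · left; exact ⟨ht, h2⟩
      · right
        rw [hT, mem_filter, mem_Icc] at ht
        rw [mem_Icc]
        exact ⟨ht.1.1, not_lt.1 h2⟩
    have e2 : T.card ≤ T'.card + b0.natAbs := by
      refine (card_le_card e1).trans ((card_union_le _ _).trans ?_)
      rw [Nat.card_Icc, Nat.add_sub_cancel]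
    have e3 : (T.card : ℝ) ≤ ((T'.card + b0.natAbs : ℕ) : ℝ) := Nat.cast_le.2 e2
    rw [Nat.cast_add] at e3
    exact e3
  have hfl : (a0.natAbs : ℤ) = a0 := Int.natAbs_of_nonneg ha0.le
  have hpos : ∀ t : ℕ, b0.natAbs < t → 1 ≤ a0 * (t : ℤ) + b0 := by
    intro t ht
    have e1 : -(b0.natAbs : ℤ) ≤ b0 := by omega
    have e2 : (b0.natAbs : ℤ) + 1 ≤ t := by omega
    have e3 : 1 * (t : ℤ) ≤ a0 * t := mul_le_mul_of_nonneg_right (by omega) (by positivity)
    linarith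
  have hinj : Set.InjOn (fun t : ℕ => (a0 * (t : ℤ) + b0).toNat) (T' : Set ℕ) := by
    intro s hs t ht hst
    simp only [hT', coe_filter, Set.mem_ofPred_eq] at hs ht
    have e1 := hpos s hs.2
    have e2 := hpos t ht.2
    simp only at hst
    have e3 : a0 * (s : ℤ) + b0 = a0 * (t : ℤ) + b0 := by omega
    have e4 : a0 * (s : ℤ) = a0 * t := by linarith
    have e5 := mul_left_cancel₀ ha0.ne' e4
    exact_mod_cast e5
  have hsub : T'.image (fun t : ℕ => (a0 * (t : ℤ) + b0).toNat) ⊆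
      (Icc 1 ⌊((a0.natAbs + b0.natAbs : ℕ) : ℝ) * Y⌋₊).filter
        (fun M : ℕ => a0 ∣ (M : ℤ) - b0 ∧ h (vD M) = h a0.natAbs) := by
    intro M hM
    rw [mem_image] at hM
    obtain ⟨t, ht, rfl⟩ := hM
    rw [hT', mem_filter, hT, mem_filter, mem_Icc] at ht
    obtain ⟨⟨⟨ht1, ht2⟩, ht3⟩, ht4⟩ := ht
    have e1 := hpos t ht4
    have e2 : (((a0 * (t : ℤ) + b0).toNat : ℕ) : ℤ) = a0 * t + b0 := by omega
    have htY : (t : ℝ) ≤ Y := (Nat.cast_le.2 ht2).trans (Nat.floor_le hY0)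
    rw [mem_filter, mem_Icc]
    refine ⟨⟨by omega, ?_⟩, ?_, ?_⟩
    · apply Nat.le_floor
      have e3 : (((a0 * (t : ℤ) + b0).toNat : ℕ) : ℝ) = (a0 : ℝ) * t + b0 := by
        have := congrArg (Int.cast (R := ℝ)) e2
        push_cast at this
        exact this
      rw [e3]
      push_cast
      have e4 : ((a0.natAbs : ℕ) : ℝ) = (a0 : ℝ) := by
        have := congrArg (Int.cast (R := ℝ)) hfl
        rw [Int.cast_natCast] at this
        exact this
      have e5 : (b0 : ℝ) ≤ ((b0.natAbs : ℕ) : ℝ) := by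
        have : b0 ≤ (b0.natAbs : ℤ) := by omega
        have h2 := Int.cast_le (R := ℝ).2 this
        rw [Int.cast_natCast] at h2
        exact h2
      rw [e4]
      have e6 : (0 : ℝ) < a0 := by exact_mod_cast ha0
      have e7 : (a0 : ℝ) * t ≤ a0 * Y := mul_le_mul_of_nonneg_left htY e6.le
      have e8 : B * 1 ≤ B * Y := mul_le_mul_of_nonneg_left hY2 hB0
      rw [add_mul]
      linarith
    · rw [e2]
      exact ⟨t, by ring⟩
    · unfold vD
      rw [e2]
      have e3 : (a0 * (t : ℤ) + b0) ^ 2 + D = a0 * Pool.Agent.AQE.gp b0 D t := by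
        have := Pool.Agent.AQE.gp_mul b0 D (t : ℤ)
        have e4 : a0 = b0 ^ 2 + D := rfl
        rw [e4, this]
        ring
      have e5 : a0 * Pool.Agent.AQE.gp b0 D t ≠ 0 := by
        rw [← e3]
        intro h2
        apply D_ns
        exact ⟨a0 * (t : ℤ) + b0, by linarith⟩
      have e6 : Pool.Agent.AQE.gp b0 D t ≠ 0 := right_ne_zero_of_mul e5
      rw [e3, Int.natAbs_mul, hh.mul _ _ (Int.natAbs_pos.2 ha0.ne') (Int.natAbs_pos.2 e6), ht3,
        mul_one]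
  have h2 : (T'.card : ℝ) ≤ (((Icc 1 ⌊((a0.natAbs + b0.natAbs : ℕ) : ℝ) * Y⌋₊).filter
        (fun M : ℕ => a0 ∣ (M : ℤ) - b0 ∧ h (vD M) = h a0.natAbs)).card : ℝ) := by
    have := card_le_card hsub
    rw [card_image_of_injOn hinj] at this
    exact_mod_cast this
  have h3 : B ≤ c₁ / 2 * Y := by
    rw [div_le_iff₀ hc₁] at hY3
    linarith
  linarith

/-- both signs of the Liouville function -/
theorem signs_of_main (M : MainAQ) {f : Polynomial ℤ} (hdeg : f.natDegree = 2)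
    (hirr : Irreducible (f.map (Int.castRingHom ℚ))) : ∃ c : ℝ, 0 < c ∧ ∃ x₀ : ℝ, ∀ x : ℝ,
      x₀ ≤ x → ∀ s : ℤ, (s = 1 ∨ s = -1) → c * x ≤ (((Finset.Icc 1 ⌊x⌋₊).filter
        (fun n : ℕ => liouville (f.eval (n : ℤ)) = s)).card : ℝ) := by
  obtain ⟨ha, hD, hev⟩ := fin_disc hdeg hirr
  set a := f.coeff 2
  set b := f.coeff 1
  set c := f.coeff 0
  have hD0 : b ^ 2 - 4 * (a * c) ≠ 0 := by
    intro h0
    exact hD ⟨0, by linear_combination h0⟩
  obtain ⟨K, hK⟩ := Pool.Agent.H15Quad.shift_int fin_mult ha hD0 {0} (by simp)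
  obtain ⟨N, hN⟩ := fin_large a b c ha
  obtain ⟨⟨n1, l1, _, e1⟩, ⟨n2, l2, _, e2⟩⟩ := hK (N + 1) (by omega)
  simp only [Finset.prod_singleton, add_zero, Pool.Agent.H15Quad.qv] at e1 e2
  obtain ⟨c1, hc1, x1, H1⟩ := M a b c ha hD _ fin_cm n1 (hN n1 (by omega))
  obtain ⟨c2, hc2, x2, H2⟩ := M a b c ha hD _ fin_cm n2 (hN n2 (by omega))
  simp only [fin_natAbs] at H1 H2
  refine ⟨min c1 c2, by positivity, max (max x1 x2) 0, fun x hx s hs => ?_⟩
  have hx0 : 0 ≤ x := (le_max_right _ _).trans hx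
  have a1 := H1 x ((le_max_left _ _).trans ((le_max_left _ _).trans hx))
  have a2 := H2 x ((le_max_right _ _).trans ((le_max_left _ _).trans hx))
  rw [e1] at a1
  rw [e2] at a2
  have h5 : min c1 c2 * x ≤ c1 * x := mul_le_mul_of_nonneg_right (min_le_left _ _) hx0
  have h6 : min c1 c2 * x ≤ c2 * x := mul_le_mul_of_nonneg_right (min_le_right _ _) hx0
  simp only [hev]
  rcases hs with rfl | rfl
  · exact h5.trans a1
  · exact h6.trans a2

/-- **the main theorem from Part I** -/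
theorem main_of_partI (hP : PartI) : MainAQ := by
  intro a b c ha hns h hh n₀ h0
  have := posD_of_not_rare (fun cc h hh => not_rare hP cc h hh) (A := a) (B := b) (C := c)
    (n0 := n₀) ha hns h0 hh
  obtain ⟨κ, x₀, hκ, hx⟩ := this
  exact ⟨κ, hκ, x₀, hx⟩

end Pool.Agent.AQ
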