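import Pool.Agent.Lib_helper97.AQ.Dual

/-!
# AQ: the covering families over a box from near-constancy and the marginals (helper97)
-/

set_option autoImplicit false

namespace Pool.Agent.AQ.NC

open Finset Pool.Agent.PENT Pool.Agent.PENT.EQ
open Pool.Agent.PATH (Pth)

variable [Cst] {k : ℕ}

/-- near-constancy over the forms of a box, in the form used below -/
def NCst (p : Prm k) (P00 : ℕ) (i : ℕ) (j l : ℤ) (C1 δ : ℝ) : Prop := ∃ n₀ : ℕ, ∀ n ≥ n₀,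
  BO i j l n ⊆ AW C1 (n ^ 2) ∧ (∀ q ∈ BO i j l n, av p (n ^ 2) q ≤ 1) ∧
    ∑ q ∈ BO i j l n, (∑ u ∈ GS p (n ^ 2), Ft p (n ^ 2) P00 q u - av p (n ^ 2) q) ^ 2 ≤
      δ * ((n ^ 2 : ℕ) : ℝ) ∧
    ∑ q ∈ BO i j l n, (1 - av p (n ^ 2) q) ≤ δ * ((n ^ 2 : ℕ) : ℝ)

omit [Cst] in
theorem fn_cm_nonneg {g : ℕ → ℝ} (hg : ∀ l, 0 ≤ g l) (m : ℕ) : 0 ≤ cm g m := by
  unfold cm
  exact Finset.prod_nonneg fun l _ => pow_nonneg (hg l) _

theorem fn_W_nonneg (p : Prm k) (X : ℕ) (q : ℤ × ℤ × ℤ) (u : Vec k) : 0 ≤ W p X q u := by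
  unfold W
  split_ifs
  · apply mul_nonneg
    · apply Finset.prod_nonneg
      intro j _
      apply fn_cm_nonneg
      intro l
      unfold wdE alE
      split_ifs <;> norm_num
    · apply Finset.prod_nonneg
      intro j _
      apply fn_cm_nonneg
      intro l
      unfold wyV beV boV
      split_ifs <;> norm_num
  · exact le_rfl

theorem fn_mem {p : Prm k} {X : ℕ} {u : Vec k} (h : u ∈ GS p X) : GP p X u := by
  unfold GS at h
  split_ifs at h with h1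
  · simpa using h
  · simp at h

theorem fn_coord {p : Prm k} {X : ℕ} {u : Vec k} (hu : GP p X u) (j : Fin (k + 1)) :
    1 ≤ (u j).1 ∧ 0 ≤ (u j).2 ∧ 1 ≤ nm (u j) := by
  unfold nm
  by_cases h0 : j = 0
  · rw [h0, hu.first]; norm_num
  · by_cases h1 : j = Fin.last k
    · rw [h1, hu.last]
      have := z1_pos
      have := z_two
      omega
    · have a0 : 1 ≤ j.val := by
        have : j.val ≠ 0 := fun h => h0 (Fin.ext h)
        omega
      have a1 : j.val + 1 ≤ k := by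
        have h2 := j.2
        have : j.val ≠ k := fun h => h1 (Fin.ext h)
        omega
      obtain ⟨b1, b2⟩ := hu.pos j a0 a1
      omega

/-- the sign of the determinant of an edge -/
theorem fn_dt {p : Prm k} (hc : 0 < p.c1) {X : ℕ} {u : Vec k} (hu : GP p X u) (j : Fin k) :
    (Even j.val → 0 < dt (u j.castSucc) (u j.succ)) ∧
      (¬ Even j.val → dt (u j.castSucc) (u j.succ) < 0) := by
  have h1 := hu.sep j.castSucc j.succ (Fin.castSucc_lt_succ)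
  have h2 : (1 : ℝ) ≤ (nm (u j.castSucc) : ℝ) := by
    exact_mod_cast (fn_coord hu j.castSucc).2.2
  have h3 : (1 : ℝ) ≤ (nm (u j.succ) : ℝ) := by exact_mod_cast (fn_coord hu j.succ).2.2
  have h4 : (0 : ℝ) < sgn j.castSucc.val j.succ.val * (dt (u j.castSucc) (u j.succ) : ℝ) := by
    refine lt_of_lt_of_le ?_ h1
    positivity
  have e1 : j.castSucc.val = j.val := rfl
  have e2 : j.succ.val = j.val + 1 := rfl
  rw [e1, e2] at h4
  unfold sgn at h4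
  constructor
  · intro he
    rw [if_neg (by tauto), one_mul] at h4
    exact_mod_cast h4
  · intro he
    have he2 : Even (j.val + 1) := by
      rw [Nat.even_add_one]; exact he
    rw [if_pos ⟨he, he2⟩] at h4
    have h5 : (dt (u j.castSucc) (u j.succ) : ℝ) < 0 := by linarith
    exact_mod_cast h5

theorem fn_dt_ne {p : Prm k} (hc : 0 < p.c1) {X : ℕ} {u : Vec k} (hu : GP p X u) (j : Fin k) :
    dt (u j.castSucc) (u j.succ) ≠ 0 := by
  obtain ⟨h1, h2⟩ := fn_dt hc hu j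
  by_cases he : Even j.val
  · exact (h1 he).ne'
  · exact (h2 he).ne

omit [Cst] in
theorem fn_dE {u : Vec k} (j : Fin k) :
    dE u (j.val + 1) = (dt (u j.castSucc) (u j.succ)).natAbs := by
  unfold dE
  rw [dif_pos ⟨by omega, by omega⟩]
  rfl

theorem fn_fE {p : Prm k} {X : ℕ} (hX : 1 ≤ X) (hk : 2 ≤ k) {u : Vec k} (hu : GP p X u) :
    fE u ∈ Fac p X := by
  classical
  have key : ∀ d : ℕ, EF p X d → d ∈ Icc 1 ⌊(X : ℝ) ^ p.ep⌋₊ := by
    intro d hd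
    rw [mem_Icc]
    refine ⟨?_, Nat.le_floor hd.hi⟩
    have h1 : (0 : ℝ) < (X : ℝ) ^ p.em := Real.rpow_pos_of_pos (by exact_mod_cast hX) _
    have h2 : (0 : ℝ) < d := lt_of_lt_of_le h1 hd.lo
    exact_mod_cast h2
  unfold Fac fE
  rw [mem_filter, mem_product]
  exact ⟨⟨key _ hu.e1, key _ hu.e2⟩, hu.e1, hu.e2, hu.cop 1 k le_rfl (by omega) le_rfl⟩

/-- the path -/
def mkP (q : ℤ × ℤ × ℤ) (u : Vec k) : Pth k := ⟨q.1, q.2.1, q.2.2, u⟩

omit [Cst] in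
theorem mkP_inj {q q' : ℤ × ℤ × ℤ} {u u' : Vec k} (h : mkP q u = mkP q' u') :
    q = q' ∧ u = u' := by
  unfold mkP at h
  rw [Pool.Agent.PATH.Pth.mk.injEq] at h
  obtain ⟨h1, h2, h3, h4⟩ := h
  exact ⟨Prod.ext h1 (Prod.ext h2 h3), h4⟩

omit [Cst] in
theorem mkP_n (q : ℤ × ℤ × ℤ) (u : Vec k) (j : Fin k) : (mkP q u).n j = nj q u j := rfl

omit [Cst] in
theorem frm_mkP (q : ℤ × ℤ × ℤ) (u : Vec k) : frm (mkP q u) = q := rfl

/-- the form data of `AW` -/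
structure FD (C1 : ℝ) (X : ℕ) (q : ℤ × ℤ × ℤ) : Prop where
  disc : q.1 * q.2.2 - q.2.1 ^ 2 = D
  a0' : (X : ℤ) < q.1
  a1 : (q.1 : ℝ) ≤ C1 * X
  b0' : q.2.1 < 0
  c0 : 0 < q.2.2
  c1 : (q.2.2 : ℝ) ≤ (ρ₂ ^ 2 * C1 + |(D : ℝ)|) * X
  w1 : ρ₁ * (q.1 : ℝ) ≤ -(q.2.1 : ℝ)
  w2 : -(q.2.1 : ℝ) ≤ ρ₂ * (q.1 : ℝ)
  cb : a0 ∣ q.2.1 - b0
  cc : a0 ∣ q.2.2

theorem fn_AW {C1 : ℝ} {X : ℕ} {q : ℤ × ℤ × ℤ} (h : q ∈ AW C1 X) : FD C1 X q := by
  unfold AW at h
  rw [mem_filter, mem_product, mem_product, mem_Ioc, mem_Icc, mem_Icc] at h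
  obtain ⟨⟨⟨a1, a2⟩, ⟨b1, b2⟩, c1, c2⟩, d1, d2, d3, d4, d5, _⟩ := h
  exact ⟨d1, a1, Int.le_floor.1 a2, by omega, by omega, Int.le_floor.1 c2, d2, d3, d4, d5⟩

theorem fn_good {p : Prm k} (hc : 0 < p.c1) {X : ℕ} {u : Vec k} (hu : GP p X u)
    {q : ℤ × ℤ × ℤ} (hq : q.1 * q.2.2 - q.2.1 ^ 2 = D) (hg : GD q u) : Good (mkP q u) where
  disc := hq
  ne := fun j => fn_dt_ne hc hu j
  d1 := fun j => by
    have h1 := (hg j).1
    rw [fn_dE, Int.natAbs_dvd] at h1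
    exact h1
  d2 := fun j => by
    have h1 := (hg j).2
    rw [fn_dE, Int.natAbs_dvd] at h1
    exact h1

/-- the determinants are prime to `R` -/
theorem fn_cop {p : Prm k} {X : ℕ} {u : Vec k} (hu : GP p X u) (j : Fin k) :
    IsCoprime (dt (u j.castSucc) (u j.succ)) (R : ℤ) := by
  have h1 := (hu.dp (j.val + 1) (by omega) (by omega)).2
  rw [fn_dE] at h1
  rw [Int.isCoprime_iff_gcd_eq_one]
  by_contra hc
  obtain ⟨l, hl, hld⟩ := Nat.exists_prime_and_dvd hc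
  have h2 : l ∣ (dt (u j.castSucc) (u j.succ)).natAbs := hld.trans (Nat.gcd_dvd_left _ _)
  have h3 : l ∣ R := by
    have := hld.trans (Nat.gcd_dvd_right _ _)
    simpa using this
  exact (h1 l hl h2).1.ndvd h3

/-- the bilinear form of two vectors of the cone is positive, from below -/
theorem fn_bf_low {C1 c1 : ℝ} (hc : 0 < c1) {X : ℕ} (hX : 1 ≤ X) {q : ℤ × ℤ × ℤ}
    (hq : FD C1 X q) (hXl : |(D : ℝ)| < c1 ^ 2 * X) {v w : ℤ × ℤ}
    (hv2 : 0 ≤ v.2) (hw2 : 0 ≤ w.2) (hvn : v.2 ≤ nm v) (hwn : w.2 ≤ nm w)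
    (hv : 1 ≤ nm v) (hw : 1 ≤ nm w) (cv : c1 * (nm v : ℝ) ≤ (v.1 : ℝ) - ρ₂ * (v.2 : ℝ))
    (cw : c1 * (nm w : ℝ) ≤ (w.1 : ℝ) - ρ₂ * (w.2 : ℝ)) :
    0 < bf q.1 q.2.1 q.2.2 v w := by
  have hX0 : (0 : ℝ) < X := by exact_mod_cast hX
  have ha : (X : ℝ) < (q.1 : ℝ) := by exact_mod_cast hq.a0'
  have ha0 : (0 : ℝ) < (q.1 : ℝ) := hX0.trans ha
  have V : (1 : ℝ) ≤ (nm v : ℝ) := by exact_mod_cast hv
  have W : (1 : ℝ) ≤ (nm w : ℝ) := by exact_mod_cast hw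
  have V2 : (0 : ℝ) ≤ (v.2 : ℝ) := by exact_mod_cast hv2
  have W2 : (0 : ℝ) ≤ (w.2 : ℝ) := by exact_mod_cast hw2
  have Vn : (v.2 : ℝ) ≤ (nm v : ℝ) := by exact_mod_cast hvn
  have Wn : (w.2 : ℝ) ≤ (nm w : ℝ) := by exact_mod_cast hwn
  -- `a Q(v,w) = (a v.1 + b v.2) (a w.1 + b w.2) + D v.2 w.2`
  have e1 : (q.1 : ℝ) * (bf q.1 q.2.1 q.2.2 v w : ℝ) =
      ((q.1 : ℝ) * v.1 + q.2.1 * v.2) * ((q.1 : ℝ) * w.1 + q.2.1 * w.2) +
        (D : ℝ) * (v.2 * w.2) := by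
    have hd : (q.1 : ℝ) * q.2.2 - (q.2.1 : ℝ) ^ 2 = (D : ℝ) := by exact_mod_cast hq.disc
    unfold bf
    push_cast
    linear_combination (v.2 * w.2 : ℝ) * hd
  have f : ∀ x : ℤ × ℤ, 0 ≤ (x.2 : ℝ) → c1 * (nm x : ℝ) ≤ (x.1 : ℝ) - ρ₂ * (x.2 : ℝ) →
      (q.1 : ℝ) * (c1 * (nm x : ℝ)) ≤ (q.1 : ℝ) * x.1 + q.2.1 * x.2 := by
    intro x hx hx2
    have h1 : (q.1 : ℝ) * (c1 * (nm x : ℝ)) ≤ (q.1 : ℝ) * ((x.1 : ℝ) - ρ₂ * (x.2 : ℝ)) :=
      mul_le_mul_of_nonneg_left hx2 ha0.le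
    have h2 : (-(ρ₂ * (q.1 : ℝ))) * (x.2 : ℝ) ≤ (q.2.1 : ℝ) * (x.2 : ℝ) := by
      apply mul_le_mul_of_nonneg_right _ hx
      linarith [hq.w2]
    linarith
  have fv' := f v V2 cv
  have fw' := f w W2 cw
  have p1 : 0 < (q.1 : ℝ) * (c1 * (nm v : ℝ)) := by positivity
  have p2 : 0 < (q.1 : ℝ) * (c1 * (nm w : ℝ)) := by positivity
  have h1 : (q.1 : ℝ) * (c1 * (nm v : ℝ)) * ((q.1 : ℝ) * (c1 * (nm w : ℝ))) ≤
      ((q.1 : ℝ) * v.1 + q.2.1 * v.2) * ((q.1 : ℝ) * w.1 + q.2.1 * w.2) :=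
    mul_le_mul fv' fw' p2.le (p1.le.trans fv')
  have h2 : -(|(D : ℝ)| * ((nm v : ℝ) * (nm w : ℝ))) ≤ (D : ℝ) * (v.2 * w.2) := by
    have h3 : (v.2 : ℝ) * w.2 ≤ (nm v : ℝ) * (nm w : ℝ) :=
      mul_le_mul Vn Wn W2 (by linarith)
    have h4 : -(|(D : ℝ)| * ((v.2 : ℝ) * w.2)) ≤ (D : ℝ) * (v.2 * w.2) := by
      have := neg_abs_le ((D : ℝ))
      nlinarith [mul_nonneg V2 W2]
    have h5 : |(D : ℝ)| * ((v.2 : ℝ) * w.2) ≤ |(D : ℝ)| * ((nm v : ℝ) * (nm w : ℝ)) :=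
      mul_le_mul_of_nonneg_left h3 (abs_nonneg _)
    linarith
  have h3 : |(D : ℝ)| * ((nm v : ℝ) * (nm w : ℝ)) <
      (q.1 : ℝ) * (c1 * (nm v : ℝ)) * ((q.1 : ℝ) * (c1 * (nm w : ℝ))) := by
    have hN : 0 < (nm v : ℝ) * (nm w : ℝ) := by positivity
    have h4 : |(D : ℝ)| < (q.1 : ℝ) * (q.1 : ℝ) * c1 ^ 2 := by
      have hX1 : (1 : ℝ) ≤ X := by exact_mod_cast hX
      have h5 : (X : ℝ) ≤ (q.1 : ℝ) * (q.1 : ℝ) := by nlinarith
      calc |(D : ℝ)| < c1 ^ 2 * X := hXl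
        _ ≤ c1 ^ 2 * ((q.1 : ℝ) * (q.1 : ℝ)) := mul_le_mul_of_nonneg_left h5 (by positivity)
        _ = _ := by ring
    calc |(D : ℝ)| * ((nm v : ℝ) * (nm w : ℝ)) <
          (q.1 : ℝ) * (q.1 : ℝ) * c1 ^ 2 * ((nm v : ℝ) * (nm w : ℝ)) :=
        mul_lt_mul_of_pos_right h4 hN
      _ = _ := by ring
  have h4 : 0 < (q.1 : ℝ) * (bf q.1 q.2.1 q.2.2 v w : ℝ) := by
    rw [e1]; linarith
  have h5 : (0 : ℝ) < (bf q.1 q.2.1 q.2.2 v w : ℝ) := by
    by_contra hcon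
    have := mul_nonpos_of_nonneg_of_nonpos ha0.le (not_lt.1 hcon)
    linarith
  exact_mod_cast h5

/-- the constant of the upper bound -/
noncomputable def KA (C1 : ℝ) : ℝ := C1 + (ρ₂ ^ 2 * C1 + |(D : ℝ)|)

theorem fn_bf_upp {C1 : ℝ} (hC1 : 0 ≤ C1) {X : ℕ} {q : ℤ × ℤ × ℤ} (hq : FD C1 X q)
    {v w : ℤ × ℤ} (hv1 : 0 ≤ v.1) (hw1 : 0 ≤ w.1) (hv2 : 0 ≤ v.2) (hw2 : 0 ≤ w.2) :
    (bf q.1 q.2.1 q.2.2 v w : ℝ) ≤ KA C1 * X * ((nm v : ℝ) * (nm w : ℝ)) := by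
  have V1 : (0 : ℝ) ≤ (v.1 : ℝ) := by exact_mod_cast hv1
  have W1 : (0 : ℝ) ≤ (w.1 : ℝ) := by exact_mod_cast hw1
  have V2 : (0 : ℝ) ≤ (v.2 : ℝ) := by exact_mod_cast hv2
  have W2 : (0 : ℝ) ≤ (w.2 : ℝ) := by exact_mod_cast hw2
  have hX0 : (0 : ℝ) ≤ X := Nat.cast_nonneg X
  have hb : (q.2.1 : ℝ) ≤ 0 := by exact_mod_cast hq.b0'.le
  have t1 : (q.1 : ℝ) * v.1 * w.1 ≤ C1 * X * ((nm v : ℝ) * (nm w : ℝ)) := by
    rw [mul_assoc]
    apply mul_le_mul hq.a1 _ (by positivity) (by positivity)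
    apply mul_le_mul _ _ W1 _
    · unfold nm; push_cast; linarith
    · unfold nm; push_cast; linarith
    · unfold nm; push_cast; linarith
  have t2 : (q.2.1 : ℝ) * (v.1 * w.2 + v.2 * w.1) ≤ 0 :=
    mul_nonpos_of_nonpos_of_nonneg hb (by positivity)
  have t3 : (q.2.2 : ℝ) * v.2 * w.2 ≤
      (ρ₂ ^ 2 * C1 + |(D : ℝ)|) * X * ((nm v : ℝ) * (nm w : ℝ)) := by
    rw [mul_assoc]
    apply mul_le_mul hq.c1 _ (by positivity) (by positivity)
    apply mul_le_mul _ _ W2 _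
    · unfold nm; push_cast; linarith
    · unfold nm; push_cast; linarith
    · unfold nm; push_cast; linarith
  unfold bf KA
  push_cast
  calc _ ≤ C1 * X * ((nm v : ℝ) * (nm w : ℝ)) + 0 +
        (ρ₂ ^ 2 * C1 + |(D : ℝ)|) * X * ((nm v : ℝ) * (nm w : ℝ)) := by linarith
    _ = _ := by ring

omit [Cst] in
theorem bf_comm' (a b c : ℤ) (v w : ℤ × ℤ) : bf a b c v w = bf a b c w v := by
  unfold bf; ring

omit [Cst] in
theorem dt_comm' (v w : ℤ × ℤ) : dt v w = -dt w v := by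
  unfold dt; ring

/-- size and class of `n_j` -/
theorem fn_n {p : Prm k} (hc : 0 < p.c1) {C1 : ℝ} (hC1 : 0 ≤ C1) {X : ℕ} (hX : 1 ≤ X)
    (hXl : |(D : ℝ)| < p.c1 ^ 2 * X) {u : Vec k} (hu : GP p X u) {q : ℤ × ℤ × ℤ}
    (hq : q ∈ AW C1 X) (hg : GD q u) (j : Fin k) :
    (1 ≤ (mkP q u).n j ∧ ((mkP q u).n j : ℝ) ≤ KA C1 / p.c1 * X) ∧
      a0 ∣ ((mkP q u).n j : ℤ) - b0 := by
  have hF := fn_AW hq
  have hG := fn_good hc hu hF.disc hg
  have hbf := hG.bf_eq j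
  obtain ⟨hdt1, hdt2⟩ := fn_dt hc hu j
  have hcop := fn_cop hu j
  set v := u j.castSucc with hv
  set w := u j.succ with hw
  obtain ⟨v1, v2, v3⟩ := fn_coord hu j.castSucc
  obtain ⟨w1, w2, w3⟩ := fn_coord hu j.succ
  rw [← hv] at v1 v2 v3
  rw [← hw] at w1 w2 w3
  have cv := hu.cone j.castSucc
  have cw := hu.cone j.succ
  rw [← hv] at cv
  rw [← hw] at cw
  have e1 : bf q.1 q.2.1 q.2.2 v w = (bf q.1 q.2.1 q.2.2 v w / dt v w) * dt v w := hbf
  have e2 : (mkP q u).n j = (bf q.1 q.2.1 q.2.2 v w / dt v w).natAbs := rfl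
  set n : ℤ := bf q.1 q.2.1 q.2.2 v w / dt v w with hn
  have hpos : 0 < bf q.1 q.2.1 q.2.2 v w :=
    fn_bf_low hc hX hF hXl v2 w2 (by unfold nm; omega) (by unfold nm; omega) v3 w3 cv cw
  have hupp := fn_bf_upp hC1 hF (by omega : 0 ≤ v.1) (by omega : 0 ≤ w.1) v2 w2
  have hsep := hu.sep j.castSucc j.succ (Fin.castSucc_lt_succ)
  rw [← hv, ← hw] at hsep
  -- the signed determinant and the signed quotient
  obtain ⟨s, m, hm, hs, hsm, hsd, hnab, hcl⟩ : ∃ (s : ℝ) (m : ℤ), 0 < m ∧ s = |(dt v w : ℝ)| ∧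
      (bf q.1 q.2.1 q.2.2 v w : ℝ) = m * s ∧ p.c1 * ((nm v : ℝ) * (nm w : ℝ)) ≤ s ∧
      ((mkP q u).n j : ℤ) = m ∧ a0 ∣ m - b0 := by
    by_cases he : Even j.val
    · have hd := hdt1 he
      have hn0 : 0 < n := by
        by_contra hcon
        have : n * dt v w ≤ 0 := mul_nonpos_of_nonpos_of_nonneg (not_lt.1 hcon) hd.le
        linarith
      have hdR : (0 : ℝ) < (dt v w : ℝ) := by exact_mod_cast hd
      refine ⟨|(dt v w : ℝ)|, n, hn0, rfl, ?_, ?_, ?_, ?_⟩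
      · rw [abs_of_pos hdR]; exact_mod_cast e1
      · rw [abs_of_pos hdR]
        have e3 : sgn j.castSucc.val j.succ.val = 1 := by
          unfold sgn
          rw [if_neg]
          rintro ⟨h, _⟩
          exact h he
        rw [e3, one_mul] at hsep
        exact hsep
      · rw [e2, Int.natCast_natAbs, abs_of_pos hn0]
      · refine edge_class hF.cb hF.cc (u := v) (v := w) ?_ hcop e1
        have ho : ¬ Even j.succ.val := by
          rw [Fin.val_succ, Nat.even_add_one]; exact fun h => h he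
        exact hu.odd j.succ ho
    · have hd := hdt2 he
      have hn0 : 0 < -n := by
        by_contra hcon
        have : 0 ≤ n := by omega
        have : n * dt v w ≤ 0 := mul_nonpos_of_nonneg_of_nonpos this hd.le
        linarith
      have hdR : (dt v w : ℝ) < 0 := by exact_mod_cast hd
      refine ⟨|(dt v w : ℝ)|, -n, hn0, rfl, ?_, ?_, ?_, ?_⟩
      · rw [abs_of_neg hdR]
        have e3 : (bf q.1 q.2.1 q.2.2 v w : ℝ) = (n : ℝ) * (dt v w : ℝ) := by exact_mod_cast e1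
        rw [e3]; push_cast; ring
      · rw [abs_of_neg hdR]
        have he2 : Even j.succ.val := by
          rw [Fin.val_succ, Nat.even_add_one]; exact he
        have e3 : sgn j.castSucc.val j.succ.val = -1 := by
          unfold sgn
          rw [if_pos]
          exact ⟨he, he2⟩
        rw [e3] at hsep
        linarith
      · rw [e2, Int.natCast_natAbs, abs_of_neg (by omega)]
      · have hcop' : IsCoprime (dt w v) (R : ℤ) := by
          rw [dt_comm' w v]; exact hcop.neg_left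
        have e3 : bf q.1 q.2.1 q.2.2 w v = (-n) * dt w v := by
          rw [bf_comm' q.1 q.2.1 q.2.2 w v, dt_comm' w v, e1]; ring
        exact edge_class hF.cb hF.cc (u := w) (v := v) (hu.odd j.castSucc he) hcop' e3
  have hmN : ((mkP q u).n j : ℝ) = (m : ℝ) := by
    have : (((mkP q u).n j : ℤ) : ℝ) = (m : ℝ) := by rw [hnab]
    exact_mod_cast this
  refine ⟨⟨?_, ?_⟩, ?_⟩
  · omega
  · rw [hmN]
    have hN : (0 : ℝ) < (nm v : ℝ) * (nm w : ℝ) := by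
      have h2 : (1 : ℝ) ≤ (nm v : ℝ) := by exact_mod_cast v3
      have h3 : (1 : ℝ) ≤ (nm w : ℝ) := by exact_mod_cast w3
      positivity
    have hmR : (0 : ℝ) < m := by exact_mod_cast hm
    have h5 : (m : ℝ) * (p.c1 * ((nm v : ℝ) * (nm w : ℝ))) ≤
        KA C1 * X * ((nm v : ℝ) * (nm w : ℝ)) :=
      (mul_le_mul_of_nonneg_left hsd hmR.le).trans (hsm ▸ hupp)
    have h6 : (m : ℝ) * p.c1 ≤ KA C1 * X := by
      have : (m : ℝ) * p.c1 * ((nm v : ℝ) * (nm w : ℝ)) ≤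
          KA C1 * X * ((nm v : ℝ) * (nm w : ℝ)) := by
        calc _ = (m : ℝ) * (p.c1 * ((nm v : ℝ) * (nm w : ℝ))) := by ring
          _ ≤ _ := h5
      exact le_of_mul_le_mul_right this hN
    rw [div_mul_eq_mul_div, le_div_iff₀ hc]
    exact h6
  · rw [hnab]; exact hcl

/-- the constants of the family -/
theorem fn_Ft {p : Prm k} {X P00 : ℕ} {c' L : ℝ} (hc' : 0 < c') (hL : 0 < L)
    {q : ℤ × ℤ × ℤ} {u : Vec k} (hM : c' * L⁻¹ ≤ Mp p X P00 q (fE u)) :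
    max 0 (Ft p X P00 q u) ≤ L / c' * W p X q u := by
  have hW := fn_W_nonneg p X q u
  have h0 : 0 ≤ L / c' * W p X q u := by positivity
  apply max_le h0
  unfold Ft
  split_ifs
  · unfold Fn
    have h1 : 0 < c' * L⁻¹ := by positivity
    calc W p X q u / Mp p X P00 q (fE u) ≤ W p X q u / (c' * L⁻¹) :=
          div_le_div_of_nonneg_left hW h1 hM
      _ = L / c' * W p X q u := by field_simp
  · exact h0

theorem fn_Ft_zero {p : Prm k} {X P00 : ℕ} {q : ℤ × ℤ × ℤ} {u : Vec k} (h : ¬ GD q u) :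
    Ft p X P00 q u = 0 := by
  have hW : W p X q u = 0 := by unfold W; rw [if_neg h]
  unfold Ft Fn
  rw [hW]
  simp

/-- **the covering families over a box** -/
theorem famB_of_nc {p : Prm k} (hk : Even k) (hk2 : 2 ≤ k) (hc : 0 < p.c1) {P00 : ℕ}
    (hP : pB k ≤ P00) {C1 δ : ℝ} (hC1 : 1 ≤ C1) (hδ : 0 < δ) (hLB : LB p) (hMAR : MAR p C1)
    {i : ℕ} {j l : ℤ} (hNC : NCst p P00 i j l C1 (δ / 20)) : FamB i j l δ := by
  classical
  obtain ⟨c, C₂, hc0, hC₂, hLB⟩ := hLB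
  obtain ⟨X1, hLB⟩ := hLB P00 hP
  obtain ⟨CM, η, hη, X2, hMAR⟩ := hMAR
  obtain ⟨n3, hNC⟩ := hNC
  set c' : ℝ := c * Real.log P00 ^ (-C₂) with hc'
  have hP3 : 3 ≤ P00 := by
    refine le_trans ?_ hP
    unfold pB
    have : 1 ≤ (k + 1) ^ 2 := Nat.one_le_pow _ _ (by omega)
    omega
  have hlP : 0 < Real.log P00 := Real.log_pos (by exact_mod_cast (by omega : 1 < P00))
  have hc'0 : 0 < c' := mul_pos hc0 (Real.rpow_pos_of_pos hlP _)
  obtain ⟨X4, hX4⟩ := exists_nat_gt (|(D : ℝ)| / p.c1 ^ 2)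
  refine ⟨k, KA C1 / p.c1, (1 / c') ^ (1 + η) * |CM| + 1, η, by omega, hk, ?_, hη,
    max 3 (max (max X1 X2) (max n3 X4)), ?_⟩
  · have : 0 ≤ (1 / c') ^ (1 + η) := Real.rpow_nonneg (by positivity) _
    positivity
  intro n hn
  simp only [ge_iff_le, max_le_iff] at hn
  obtain ⟨n3', ⟨x1, x2⟩, x3, x4⟩ := hn
  obtain ⟨hO1, hav, hO4, hO5⟩ := hNC n x3
  have hnn : n ≤ n ^ 2 := Nat.le_self_pow (by norm_num) n
  set X : ℕ := n ^ 2 with hXd
  set O := BO i j l n with hOd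
  have hX3 : (3 : ℝ) ≤ X := by exact_mod_cast n3'.trans hnn
  have hX0 : (0 : ℝ) < X := by linarith
  have hX1 : 1 ≤ X := by omega
  have hXl : |(D : ℝ)| < p.c1 ^ 2 * X := by
    have h1 : |(D : ℝ)| / p.c1 ^ 2 < X :=
      lt_of_lt_of_le hX4 (by exact_mod_cast x4.trans hnn)
    rw [div_lt_iff₀ (by positivity)] at h1
    linarith
  have hlX : 0 < Real.log X := Real.log_pos (by linarith)
  set L : ℝ := Real.log X ^ mE k with hL
  have hL0 : 0 < L := Real.rpow_pos_of_pos hlX _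
  have hLi : Real.log X ^ (-mE k) = L⁻¹ := Real.rpow_neg hlX.le _
  have hMp : ∀ q ∈ O, ∀ u ∈ GS p X, c' * L⁻¹ ≤ Mp p X P00 q (fE u) := by
    intro q hq u hu
    have h1 := hLB X (x1.trans hnn) (fE u) (fn_fE hX1 hk2 (fn_mem hu)) q (fn_AW (hO1 hq)).disc
    rw [hLi] at h1
    exact h1
  set Z := (O ×ˢ GS p X).filter (fun z => GD z.1 z.2) with hZ
  set s : Finset (Pth k) := Z.image (fun z => mkP z.1 z.2) with hs
  set w : Pth k → ℝ := fun τ => max 0 (Ft p X P00 (frm τ) τ.u) with hw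
  have hmem : ∀ τ ∈ s, ∃ q ∈ O, ∃ u ∈ GS p X, GD q u ∧ mkP q u = τ := by
    intro τ hτ
    rw [hs, mem_image] at hτ
    obtain ⟨z, hz, rfl⟩ := hτ
    rw [hZ, mem_filter, mem_product] at hz
    exact ⟨z.1, hz.1.1, z.2, hz.1.2, hz.2, rfl⟩
  have hinj : Set.InjOn (fun z : (ℤ × ℤ × ℤ) × Vec k => mkP z.1 z.2) (Z : Set _) := by
    intro z _ z' _ h
    obtain ⟨h1, h2⟩ := mkP_inj h
    exact Prod.ext h1 h2
  have hsum : ∀ (Q : Pth k → Prop) [DecidablePred Q], ∑ τ ∈ s.filter Q, w τ =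
      ∑ q ∈ O, ∑ u ∈ (GS p X).filter (fun u => Q (mkP q u)), max 0 (Ft p X P00 q u) := by
    intro Q _
    rw [sum_filter, hs, sum_image hinj, hZ, sum_filter, sum_product]
    apply sum_congr rfl
    intro q _
    rw [sum_filter]
    apply sum_congr rfl
    intro u _
    by_cases hg : GD q u
    · rw [if_pos hg]
      rfl
    · rw [if_neg hg, fn_Ft_zero hg]
      simp
  refine ⟨s, w, ?_⟩
  refine
    { good := ?_, first := ?_, last := ?_, mem := ?_, w0 := ?_, n1 := ?_, cls := ?_,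
      near := ?_, marg := ?_ }
  · intro τ hτ
    obtain ⟨q, hq, u, hu, hg, rfl⟩ := hmem τ hτ
    exact fn_good hc (fn_mem hu) (fn_AW (hO1 hq)).disc hg
  · intro τ hτ
    obtain ⟨q, hq, u, hu, hg, rfl⟩ := hmem τ hτ
    exact (fn_mem hu).first
  · intro τ hτ
    obtain ⟨q, hq, u, hu, hg, rfl⟩ := hmem τ hτ
    exact (fn_mem hu).last
  · intro τ hτ
    obtain ⟨q, hq, u, hu, hg, rfl⟩ := hmem τ hτ
    exact hq
  · intro τ
    exact le_max_left _ _
  · intro τ hτ j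
    obtain ⟨q, hq, u, hu, hg, rfl⟩ := hmem τ hτ
    exact (fn_n hc (by linarith) hX1 hXl (fn_mem hu) (hO1 hq) hg j).1
  · intro τ hτ j
    obtain ⟨q, hq, u, hu, hg, rfl⟩ := hmem τ hτ
    exact (fn_n hc (by linarith) hX1 hXl (fn_mem hu) (hO1 hq) hg j).2
  · -- near
    set B2 := O.filter (fun q => 1 / 4 ≤ 1 - av p X q) with hB2
    set B3 := O.filter (fun q => 1 / 16 ≤ (∑ u ∈ GS p X, Ft p X P00 q u - av p X q) ^ 2) with hB3
    have c2 : (B2.card : ℝ) ≤ 4 * (δ / 20 * X) := by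
      have h1 : ∑ q ∈ B2, (1 / 4 : ℝ) ≤ ∑ q ∈ B2, (1 - av p X q) :=
        sum_le_sum fun q hq => (mem_filter.1 hq).2
      have h2 : ∑ q ∈ B2, (1 - av p X q) ≤ ∑ q ∈ O, (1 - av p X q) :=
        sum_le_sum_of_subset_of_nonneg (filter_subset _ _)
          fun q hq _ => sub_nonneg.2 (hav q hq)
      rw [sum_const, nsmul_eq_mul] at h1
      linarith
    have c3 : (B3.card : ℝ) ≤ 16 * (δ / 20 * X) := by
      have h1 : ∑ q ∈ B3, (1 / 16 : ℝ) ≤
          ∑ q ∈ B3, (∑ u ∈ GS p X, Ft p X P00 q u - av p X q) ^ 2 :=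
        sum_le_sum fun q hq => (mem_filter.1 hq).2
      have h2 : ∑ q ∈ B3, (∑ u ∈ GS p X, Ft p X P00 q u - av p X q) ^ 2 ≤
          ∑ q ∈ O, (∑ u ∈ GS p X, Ft p X P00 q u - av p X q) ^ 2 :=
        sum_le_sum_of_subset_of_nonneg (filter_subset _ _) fun q _ _ => sq_nonneg _
      rw [sum_const, nsmul_eq_mul] at h1
      linarith
    have hwb : ∀ q ∈ O, ∑ u ∈ GS p X, Ft p X P00 q u ≤ wb s w frm q := by
      intro q hq
      unfold wb
      rw [hsum]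
      have h1 : ∑ u ∈ GS p X, Ft p X P00 q u ≤
          ∑ u ∈ (GS p X).filter (fun u => frm (mkP q u) = q), max 0 (Ft p X P00 q u) := by
        have e0 : (GS p X).filter (fun u => frm (mkP q u) = q) = GS p X :=
          filter_true_of_mem (fun u _ => rfl)
        rw [e0]
        exact sum_le_sum fun u _ => le_max_right _ _
      refine h1.trans ?_
      exact single_le_sum (f := fun q' => ∑ u ∈ (GS p X).filter
        (fun u => frm (mkP q' u) = q), max 0 (Ft p X P00 q' u))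
        (fun q' _ => sum_nonneg fun u _ => le_max_left _ _) hq
    have hsub : O.filter (fun y => wb s w frm y < 1 / 2) ⊆ B2 ∪ B3 := by
      intro q hq
      rw [mem_filter] at hq
      obtain ⟨hqO, hqw⟩ := hq
      have h2 := hwb q hqO
      rw [mem_union]
      by_cases h3 : 1 / 4 ≤ 1 - av p X q
      · exact Or.inl (mem_filter.2 ⟨hqO, h3⟩)
      · right
        rw [hB3, mem_filter]
        refine ⟨hqO, ?_⟩
        have h4 : ∑ u ∈ GS p X, Ft p X P00 q u < 1 / 2 := lt_of_le_of_lt h2 hqw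
        nlinarith
    have hle : (O.filter (fun y => wb s w frm y < 1 / 2)).card ≤ B2.card + B3.card :=
      (card_le_card hsub).trans (card_union_le _ _)
    have hle' : ((O.filter (fun y => wb s w frm y < 1 / 2)).card : ℝ) ≤ B2.card + B3.card := by
      exact_mod_cast hle
    linarith
  · -- marginals
    intro j E
    have h1 : ∀ n : ℕ, mar s w (fun τ => τ.n j) n ≤
        L / c' * ∑ q ∈ AW C1 X, ∑ u ∈ (GS p X).filter (fun u => nj q u j = n), W p X q u := by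
      intro n
      unfold mar
      rw [hsum]
      rw [mul_sum]
      have h2 : ∀ q ∈ O, ∑ u ∈ (GS p X).filter (fun u => (mkP q u).n j = n),
          max 0 (Ft p X P00 q u) ≤
          L / c' * ∑ u ∈ (GS p X).filter (fun u => nj q u j = n), W p X q u := by
        intro q hq
        rw [mul_sum]
        apply sum_le_sum
        intro u hu
        rw [mem_filter] at hu
        exact fn_Ft hc'0 hL0 (hMp q hq u hu.1)
      refine (sum_le_sum h2).trans ?_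
      apply sum_le_sum_of_subset_of_nonneg hO1
      intro q _ _
      exact mul_nonneg (by positivity) (sum_nonneg fun u _ => fn_W_nonneg p X q u)
    have h3 : ∀ n : ℕ, 0 ≤ ∑ q ∈ AW C1 X, ∑ u ∈ (GS p X).filter (fun u => nj q u j = n),
        W p X q u := fun n => sum_nonneg fun q _ => sum_nonneg fun u _ => fn_W_nonneg p X q u
    calc ∑ n ∈ E, mar s w (fun τ => τ.n j) n ^ (1 + η)
        ≤ ∑ n ∈ E, (L / c') ^ (1 + η) * (∑ q ∈ AW C1 X,
            ∑ u ∈ (GS p X).filter (fun u => nj q u j = n), W p X q u) ^ (1 + η) := by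
          apply sum_le_sum
          intro n _
          rw [← Real.mul_rpow (by positivity) (h3 n)]
          exact Real.rpow_le_rpow (mar_nonneg s (fun τ => le_max_left _ _) _ n) (h1 n)
            (by linarith)
      _ = (L / c') ^ (1 + η) * ∑ n ∈ E, (∑ q ∈ AW C1 X,
            ∑ u ∈ (GS p X).filter (fun u => nj q u j = n), W p X q u) ^ (1 + η) := by
          rw [mul_sum]
      _ ≤ (L / c') ^ (1 + η) * (CM * X * Real.log X ^ (-mE k * (1 + η))) :=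
          mul_le_mul_of_nonneg_left (hMAR X (x2.trans hnn) j E)
            (Real.rpow_nonneg (by positivity) _)
      _ ≤ ((1 / c') ^ (1 + η) * |CM| + 1) * X := by
          have e1 : Real.log X ^ (-mE k * (1 + η)) = (L ^ (1 + η))⁻¹ := by
            rw [Real.rpow_mul hlX.le, hLi, Real.inv_rpow hL0.le]
          have e2 : (L / c') ^ (1 + η) = L ^ (1 + η) * (1 / c') ^ (1 + η) := by
            rw [← Real.mul_rpow hL0.le (by positivity)]
            congr 1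
            ring
          have hL1 : 0 < L ^ (1 + η) := Real.rpow_pos_of_pos hL0 _
          have hc1 : 0 ≤ (1 / c') ^ (1 + η) := Real.rpow_nonneg (by positivity) _
          rw [e1, e2]
          calc L ^ (1 + η) * (1 / c') ^ (1 + η) * (CM * X * (L ^ (1 + η))⁻¹)
              = (1 / c') ^ (1 + η) * CM * X * (L ^ (1 + η) * (L ^ (1 + η))⁻¹) := by ring
            _ = (1 / c') ^ (1 + η) * CM * X := by rw [mul_inv_cancel₀ hL1.ne', mul_one]
            _ ≤ (1 / c') ^ (1 + η) * |CM| * X := by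
                apply mul_le_mul_of_nonneg_right _ hX0.le
                exact mul_le_mul_of_nonneg_left (le_abs_self _) hc1
            _ ≤ _ := by nlinarith

/-- from near-constancy to the rigidity over a box -/
theorem ptb_of_nc {p : Prm k} (hk : Even k) (hk2 : 2 ≤ k) (hc : 0 < p.c1) {P00 : ℕ}
    (hP : pB k ≤ P00) {C1 δ : ℝ} (hC1 : 1 ≤ C1) (hδ : 0 < δ) (hLB : LB p) (hMAR : MAR p C1)
    {i : ℕ} {j l : ℤ} (hNC : NCst p P00 i j l C1 (δ / 2 / 20)) : PTB i j l δ :=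
  PTB_of_fam hδ (famB_of_nc hk hk2 hc hP hC1 (by positivity) hLB hMAR hNC)

end Pool.Agent.AQ.NC
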