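import Pool.Agent.Lib_helper97.AQ.PartOne
import Pool.Agent.Lib_helper97.AQ.End
import Pool.Agent.Lib_helper96.AQC.All
import Pool.Agent.Lib_helper18.AQ.MF.Mar
import Pool.Agent.Lib_helper15.AQ.TPF.Main
import Pool.Agent.Lib_helper15.AQ.UPAF.UBM
import Pool.Agent.Lib_helper15.AQ.UPAF.UC3
import Pool.Agent.Lib_helper15.AQ.UPAF.UC4
import Pool.Agent.Lib_helper15.AQ.UPAF.DGM

/-!
# AQ: PART I and the main theorem, all inputs (helper97)
-/

set_option autoImplicit false

namespace Pool.Agent.AQ

/-- **PART I** -/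
theorem partI : PartI := by
  intro c i j l hB δ hδ
  exact @NC.part_one c 10 (by decide) (by norm_num) TPA.LB_all UPA.UB_all UPA.UB1_all UPA.UB2_all
    UPA.DG_all PENM.neg_all (PENM.mar_all UPA.DG_all UPA.DGN_all) i j l (CV.cov_all hB) δ hδ

/-- **the main theorem** -/
theorem main_all : MainAQ := main_of_partI partI

end Pool.Agent.AQ
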