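import Pool.Agent.Lib_helper88.AQN.All
import Pool.Agent.Lib_helper8.AQ.FromNC

/-!
# AQ: Part I from its inputs (helper97; port of helper88's NCF/NE8)
-/

set_option autoImplicit false

namespace Pool.Agent.AQ.NC

open Finset Pool.Agent.PENT Pool.Agent.PENT.EQ

variable [Cst]

/-- **PART I**, from the inputs: the rigidity over an admissible box -/
theorem part_one (k : ℕ) (hk : Even k) (hk4 : 4 ≤ k)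
    (hLB : ∃ τ₀ : ℝ, 0 < τ₀ ∧ ∀ p : Prm k, p.Ok τ₀ → LB p)
    (hUB : ∃ τ₀ : ℝ, 0 < τ₀ ∧ ∀ p : Prm k, p.Ok τ₀ → UB p)
    (hUB1 : ∃ τ₀ : ℝ, 0 < τ₀ ∧ ∀ p : Prm k, p.Ok τ₀ → UB1 p)
    (hUB2 : ∃ τ₀ : ℝ, 0 < τ₀ ∧ ∀ p : Prm k, p.Ok τ₀ → UB2 p)
    (hDG : ∀ C1 : ℝ, 1 ≤ C1 → ∃ τ₀ : ℝ, 0 < τ₀ ∧ ∀ p : Prm k, p.Ok τ₀ → DG p C1)
    (hNEG : ∀ C1 : ℝ, 1 ≤ C1 → ∃ τ₀ : ℝ, 0 < τ₀ ∧ ∀ p : Prm k, p.Ok τ₀ → NEG p C1)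
    (hMAR : ∀ C1 : ℝ, 1 ≤ C1 → ∃ τ₀ : ℝ, 0 < τ₀ ∧ ∀ p : Prm k, p.Ok τ₀ → MAR p C1)
    (i : ℕ) (j l : ℤ) (hCOV : ∃ C1 : ℝ, 1 ≤ C1 ∧ COV i j l C1)
    (δ : ℝ) (hδ : 0 < δ) : PTB i j l δ := by
  obtain ⟨C1, hC1, c, n1, hc, _, hCOV⟩ := hCOV
  set δ' : ℝ := δ / 80 with hδ'
  have hδ'0 : 0 < δ' := by positivity
  have hC10 : 0 < C1 := by linarith
  obtain ⟨a1, ha1, hLB⟩ := hLB
  obtain ⟨a2, ha2, hUB⟩ := hUB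
  obtain ⟨a3, ha3, hUB1⟩ := hUB1
  obtain ⟨a4, ha4, hUB2⟩ := hUB2
  obtain ⟨a5, ha5, hDG⟩ := hDG C1 hC1
  obtain ⟨a6, ha6, hNEG⟩ := hNEG C1 hC1
  obtain ⟨a7, ha7, hMAR⟩ := hMAR C1 hC1
  obtain ⟨a8, ha8, hNC⟩ := near_const hk hk4 C1 C1 c δ' hC1 hC10 hc hδ'0
  obtain ⟨a9, ha9, hEND⟩ := end_mean (k := k) hk4 C1 C1 c δ' hC1 hC10 hc hδ'0
  set τ : ℝ := min (min (min (min a1 a2) (min a3 a4)) (min (min a5 a6) (min a7 a8)))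
    (min a9 1) with hτd
  have hτ : 0 < τ := by
    rw [hτd]
    exact lt_min (lt_min (lt_min (lt_min ha1 ha2) (lt_min ha3 ha4))
      (lt_min (lt_min ha5 ha6) (lt_min ha7 ha8))) (lt_min ha9 one_pos)
  obtain ⟨p, hp⟩ := exists_prm k hk τ hτ ((min_le_right _ _).trans (min_le_right _ _))
  have b1 : τ ≤ a1 := by rw [hτd]; simp
  have b2 : τ ≤ a2 := by rw [hτd]; simp
  have b3 : τ ≤ a3 := by rw [hτd]; simp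
  have b4 : τ ≤ a4 := by rw [hτd]; simp
  have b5 : τ ≤ a5 := by rw [hτd]; simp
  have b6 : τ ≤ a6 := by rw [hτd]; simp
  have b7 : τ ≤ a7 := by rw [hτd]; simp
  have b8 : τ ≤ a8 := by rw [hτd]; simp
  have b9 : τ ≤ a9 := by rw [hτd]; simp
  have m := fun {a : ℝ} (h : τ ≤ a) => hp.mono hτ hk4 h
  have iLB := hLB p (m b1)
  obtain ⟨P00, m', hP, _, X2, hN⟩ := hNC p (m b8) iLB (hUB p (m b2)) (hUB1 p (m b3))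
    (hUB2 p (m b4)) (hDG p (m b5)) (hNEG p (m b6))
  obtain ⟨X3, hE⟩ := hEND p (m b9)
  refine ptb_of_nc hk (by omega) hp.c10 hP hδ iLB (hMAR p (m b7)) (C1 := C1) ?_
  refine ⟨max n1 (max X2 X3), fun n hn => ?_⟩
  simp only [ge_iff_le, max_le_iff] at hn
  obtain ⟨x1, x2, x3⟩ := hn
  have hnn : n ≤ n ^ 2 := Nat.le_self_pow (by norm_num) n
  obtain ⟨hO, hO3, hO5⟩ := hCOV n x1
  have hO3' : ((BO i j l n).card : ℝ) ≤ C1 * ((n ^ 2 : ℕ) : ℝ) := by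
    push_cast
    exact hO3
  refine ⟨hO, fun q hq => ?_, (hN (n ^ 2) (x2.trans hnn)).2 _ hO hO3' hO5,
    hE (n ^ 2) (x3.trans hnn) _ hO hO3' hO5⟩
  have h1 := hO hq
  unfold AW at h1
  exact (av_le_one (Finset.mem_filter.1 h1).2.1).2

end Pool.Agent.AQ.NC
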